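import Pool.Agent.K3h47.FU.Ren
import Pool.Agent.K3h47.HY.Final2

/-!
# Fujita's very ampleness conjecture for branched abelian covers

Let `T` be a smooth projective variety of dimension `n`, `H` a very ample line bundle on `T`, and
`κ` an integer such that `Ω = K_T - κH` is base point free. We take `κ ≥ -n`; by the theorem of
Sommese and Van de Ven `K_T + nH` is base point free for all `T`, `H` except `P^n`, `O(1)`, so
`κ = -n` is possible for all other `T`. The sections `x_k` of `H` and `y_j` of `Ω` embed `T` in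
`P^N × P^N'`. (If `K_T = κH` then `N' = 0`, `T ⊆ P^N`, and one may forget `y`. For a complete
intersection `T ⊆ P^N` which is not `P^n` one has `κ ≥ -n`.)

Let `D_1, …, D_r` be divisors `F_i = 0` of `T`, `F_i` a form in `x` of degree `δ_i`, crossing
normally. We consider the smooth abelian covers `π : X → T` branched along the `D_i` with indices
`e_i ≥ 2` (whose building data are multiples of `H`). Such a cover is the quotient of the cone

  `{(x, y, z) : (x, y) ∈ T, z_i ^ e_i = F_i(x)}`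

by a group `ℂˣ × 𝓗` acting freely, `ℂˣ` acting on `y`, and `𝓗 ⊆ ℂˣ × (ℂˣ)^r` acting on `(x, z)`:
`𝓗` is the common kernel of a group `R` of characters `(l, u) : (s, t) ↦ s ^ l ∏ t_i ^ (u_i)`,
where `R` contains the characters `(-δ_i, e_i)` and lies in the kernel of the degree. The Galois
group of `X → T` is the quotient of `∏ μ_(e_i)` by the part of `𝓗` with `s = 1`.

A character `(l, u)` gives the line bundle `O(l, u)` on `X` whose sections are the functions on the
cone which do not depend on `y` and which `𝓗` multiplies by this character. The `x_k` are sections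
of `O(1, 0) = π^* H`, and `z_i` is a section of `O(0, 1_i)` whose divisor is the reduced preimage of
`D_i`. So `K_X = π^* K_T + ∑ (e_i - 1) (z_i = 0)` is `π^* Ω + O(κ, e - 1)`, and `O(l, u)` is ample if
and only if its degree `l + ∑ u_i δ_i / e_i` is positive, since a multiple of it is the pullback of
a multiple of `H`. (If `n ≥ 3` and `T` is `P^n` or a complete intersection then all the line bundles
on `X` are of the form `O(l, u)`.)

The result: for `A = O(k, u)` ample, `K_X + mA` is base point free and separates points and tangent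
vectors for all `m ≥ 0` with `m ≥ 1 - κ`, if `κ ≥ -n` or if `T = P^n`, `κ = -(n + 1)`, `n ≥ 2`. So this
holds
* for `m ≥ n + 1` for all `T`, `H` except `P^n`, `O(1)`, and for `m ≥ n + 2` for `P^n` (if `n = 1` this
  is classical);
* for `K_X + A` and even `K_X`, if `κ ≥ 0` resp. `κ ≥ 1`, for instance for covers of Calabi-Yau resp.
  canonically polarized complete intersections.

In particular, if `n ≥ 3` then Fujita's very ampleness conjecture holds for all smooth abelian covers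
of `P^n` and of complete intersections.
-/

set_option autoImplicit false

namespace Pool.Agent.Results.MP_e09b14_ag.AbelianCovers

open MvPolynomial

/-- The character `(s, t) ↦ s ^ l ∏ t_i ^ (u_i)` given by `ρ = (l, u)`. -/
def character {r : ℕ} (ρ : ℤ × (Fin r → ℤ)) (s : ℂˣ) (t : Fin r → ℂˣ) : ℂˣ :=
  s ^ ρ.1 * ∏ i, t i ^ ρ.2 i

/-- The degree `l + ∑ u_i δ_i / e_i` of the class `(l, u)`. -/
def degree {r : ℕ} (δ e : Fin r → ℕ) (ρ : ℤ × (Fin r → ℤ)) : ℚ :=
  (ρ.1 : ℚ) + ∑ i, (ρ.2 i : ℚ) * (δ i / e i)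

/-- `G(x, y)` is homogeneous of degree `g` in `x` and of degree `g'` in `y`. -/
def Bihomogeneous {N N' : ℕ} (G : MvPolynomial (Fin (N + 1) ⊕ Fin (N' + 1)) ℂ) (g g' : ℕ) :
    Prop :=
  ∀ (s q : ℂ) (x : Fin (N + 1) → ℂ) (y : Fin (N' + 1) → ℂ),
    eval (Sum.elim (fun k => s * x k) (fun j => q * y j)) G = s ^ g * q ^ g' * eval (Sum.elim x y) G

/-- `(x, y)` represents a point of the closed subset of `P^N × P^N'` with the equations `G_j`. -/
def OnBase {N N' c : ℕ} (G : Fin c → MvPolynomial (Fin (N + 1) ⊕ Fin (N' + 1)) ℂ)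
    (x : Fin (N + 1) → ℂ) (y : Fin (N' + 1) → ℂ) : Prop :=
  x ≠ 0 ∧ y ≠ 0 ∧ ∀ j, eval (Sum.elim x y) (G j) = 0

/-- `(u, w)` is a tangent vector at `(x, y)` to the closed subset with the equations `G_j`. -/
def TangentToBase {N N' c : ℕ} (G : Fin c → MvPolynomial (Fin (N + 1) ⊕ Fin (N' + 1)) ℂ)
    (x u : Fin (N + 1) → ℂ) (y w : Fin (N' + 1) → ℂ) : Prop :=
  ∀ j, ∑ k, eval (Sum.elim x y) (pderiv (Sum.inl k) (G j)) * u k
    + ∑ l, eval (Sum.elim x y) (pderiv (Sum.inr l) (G j)) * w l = 0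

/-- The closed subset of `P^N × P^N'` with the equations `G_j` has dimension at least `n`: any `n`
forms of positive degrees in `x` have a common zero on it. -/
def DimensionAtLeast {N N' c : ℕ} (n : ℕ)
    (G : Fin c → MvPolynomial (Fin (N + 1) ⊕ Fin (N' + 1)) ℂ) : Prop :=
  ∀ (f : Fin n → MvPolynomial (Fin (N + 1)) ℂ) (d : Fin n → ℕ),
    (∀ i, 0 < d i ∧ (f i).IsHomogeneous (d i)) →
    ∃ x y, OnBase G x y ∧ ∀ i, eval x (f i) = 0

/-- The base: a closed subset `T` of `P^N × P^N'` such that the projection `T → P^N` separates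
points and tangent vectors. -/
structure Base (N N' c n : ℕ) where
  /-- the equations of `T` -/
  G : Fin c → MvPolynomial (Fin (N + 1) ⊕ Fin (N' + 1)) ℂ
  /-- their degrees in `x` -/
  g : Fin c → ℕ
  /-- their degrees in `y` -/
  g' : Fin c → ℕ
  bihomogeneous : ∀ j, Bihomogeneous (G j) (g j) (g' j)
  /-- `T → P^N` is injective -/
  inj : ∀ x y y', OnBase G x y → OnBase G x y' → ∃ q : ℂ, ∀ j, y' j = q * y j
  /-- `T → P^N` is injective on tangent vectors -/
  imm : ∀ x u y w, OnBase G x y → TangentToBase G x u y w → (∃ σ : ℂ, ∀ k, u k = σ * x k) →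
    ∃ τ : ℂ, ∀ j, w j = τ * y j
  /-- `dim T ≥ n`; this need not be checked if `T ⊆ P^N` is given by `N - n` equations -/
  dim : (N' = 0 ∧ N = n + c ∧ ∀ j, 0 < g j) ∨ DimensionAtLeast n G

/-- A point of the cone over the cover: `(x, y)` is a point of `T`, and `z_i ^ e_i = F_i(x)`. -/
def OnCone {N N' c r : ℕ} (G : Fin c → MvPolynomial (Fin (N + 1) ⊕ Fin (N' + 1)) ℂ)
    (F : Fin r → MvPolynomial (Fin (N + 1)) ℂ) (e : Fin r → ℕ)
    (x : Fin (N + 1) → ℂ) (y : Fin (N' + 1) → ℂ) (z : Fin r → ℂ) : Prop :=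
  OnBase G x y ∧ ∀ i, z i ^ e i = eval x (F i)

/-- The data of an abelian cover `X → T`. -/
structure Cover (N N' c r n : ℕ) extends Base N N' c n where
  /-- the equations of the branch divisors `D_i` -/
  F : Fin r → MvPolynomial (Fin (N + 1)) ℂ
  /-- their degrees -/
  δ : Fin r → ℕ
  homogeneous : ∀ i, (F i).IsHomogeneous (δ i)
  δpos : ∀ i, 0 < δ i
  /-- the ramification indices -/
  e : Fin r → ℕ
  two : ∀ i, 2 ≤ e i
  /-- the characters which are trivial on the group `𝓗` -/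
  R : AddSubgroup (ℤ × (Fin r → ℤ))
  /-- the equations `z_i ^ e_i = F_i(x)` are preserved by `𝓗` -/
  rel : ∀ i, ((-(δ i : ℤ), Pi.single i (e i : ℤ)) : ℤ × (Fin r → ℤ)) ∈ R
  /-- `𝓗 → ℂˣ`, `(s, t) ↦ s`, has finite kernel and is surjective -/
  deg : ∀ ρ ∈ R, degree δ e ρ = 0
  /-- `𝓗` acts freely -/
  free : ∀ x y z, OnCone G F e x y z → ∀ (s : ℂˣ) (t : Fin r → ℂˣ),
    (∀ ρ ∈ R, character ρ s t = 1) → (∀ k, (s : ℂ) * x k = x k) → (∀ i, (t i : ℂ) * z i = z i) →
      s = 1 ∧ t = 1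
  /-- at most `n` of the divisors `D_i` pass through a point of `T` (normal crossings) -/
  few : ∀ x y z, OnCone G F e x y z → (Finset.univ.filter (fun i => z i = 0)).card ≤ n

variable {N N' c r n : ℕ}

/-- `(s, t)` is an element of the group `𝓗`. -/
def Cover.InGroup (D : Cover N N' c r n) (s : ℂˣ) (t : Fin r → ℂˣ) : Prop :=
  ∀ ρ ∈ D.R, character ρ s t = 1

/-- The polynomials in the variables `x`, `y`, `z`. -/
abbrev Poly (N N' r : ℕ) : Type := MvPolynomial (Fin (N + 1) ⊕ (Fin (N' + 1) ⊕ Fin r)) ℂ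

/-- The value of `Φ` at `(x, y, z)`. -/
noncomputable def value (x : Fin (N + 1) → ℂ) (y : Fin (N' + 1) → ℂ) (z : Fin r → ℂ)
    (Φ : Poly N N' r) : ℂ := eval (Sum.elim x (Sum.elim y z)) Φ

/-- `Φ` is a section of the line bundle `π^* Ω + O(ρ)` on `X`. -/
def Cover.IsSection (D : Cover N N' c r n) (ρ : ℤ × (Fin r → ℤ)) (Φ : Poly N N' r) : Prop :=
  ∀ (s q : ℂˣ) (t : Fin r → ℂˣ), D.InGroup s t →
    ∀ (x : Fin (N + 1) → ℂ) (y : Fin (N' + 1) → ℂ) (z : Fin r → ℂ),
    value (fun k => (s : ℂ) * x k) (fun j => (q : ℂ) * y j) (fun i => (t i : ℂ) * z i) Φ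
      = q * character ρ s t * value x y z Φ

/-- The derivative of `Φ` at `(x, y, z)` in the direction `(u, w, v)`. -/
noncomputable def derivative (x u : Fin (N + 1) → ℂ) (y w : Fin (N' + 1) → ℂ) (z v : Fin r → ℂ)
    (Φ : Poly N N' r) : ℂ :=
  ∑ k, value x y z (pderiv (Sum.inl k) Φ) * u k
    + (∑ j, value x y z (pderiv (Sum.inr (Sum.inl j)) Φ) * w j
      + ∑ i, value x y z (pderiv (Sum.inr (Sum.inr i)) Φ) * v i)

/-- `(u, w, v)` is a tangent vector to the cone over `X` at its point `(x, y, z)`. -/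
def Cover.Tangent (D : Cover N N' c r n) (x u : Fin (N + 1) → ℂ) (y w : Fin (N' + 1) → ℂ)
    (z v : Fin r → ℂ) : Prop :=
  TangentToBase D.G x u y w ∧
    ∀ i, D.e i * z i ^ (D.e i - 1) * v i = ∑ k, eval x (pderiv k (D.F i)) * u k

/-- The sections of `π^* Ω + O(ρ)` have no base point on `X`, and they separate points and tangent
vectors of `X`. (Two points of the cone give the same point of `X` if they are conjugate under
`ℂˣ × 𝓗`; a tangent vector of the cone gives zero on `X` if it is tangent to the orbit, that is, a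
combination of `(x, 0, (δ_i / e_i) z_i)` and `(0, y, 0)`.) -/
def Cover.VeryAmple (D : Cover N N' c r n) (ρ : ℤ × (Fin r → ℤ)) : Prop :=
  (∀ x y z, OnCone D.G D.F D.e x y z → ∃ Φ, D.IsSection ρ Φ ∧ value x y z Φ ≠ 0) ∧
  (∀ x y z x' y' z', OnCone D.G D.F D.e x y z → OnCone D.G D.F D.e x' y' z' →
    (¬ ∃ (s q : ℂˣ) (t : Fin r → ℂˣ), D.InGroup s t ∧ (∀ k, x' k = (s : ℂ) * x k) ∧
      (∀ j, y' j = (q : ℂ) * y j) ∧ ∀ i, z' i = (t i : ℂ) * z i) →
    ∃ Φ, D.IsSection ρ Φ ∧ value x y z Φ = 0 ∧ value x' y' z' Φ ≠ 0) ∧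
  (∀ x y z u w v, OnCone D.G D.F D.e x y z → D.Tangent x u y w z v →
    (¬ ∃ σ τ : ℂ, (∀ k, u k = σ * x k) ∧ (∀ j, w j = τ * y j) ∧
      ∀ i, v i = σ * (D.δ i / D.e i) * z i) →
    ∃ Φ, D.IsSection ρ Φ ∧ value x y z Φ = 0 ∧ derivative x u y w z v Φ ≠ 0)

theorem dimension_completeIntersection {N c n : ℕ}
    (G : Fin c → MvPolynomial (Fin (N + 1) ⊕ Fin (0 + 1)) ℂ) (g g' : Fin c → ℕ)
    (hG : ∀ j, Bihomogeneous (G j) (g j) (g' j)) (hg : ∀ j, 0 < g j) (hN : N = n + c) :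
    DimensionAtLeast n G := by
  intro f d hf
  set h : (Fin (N + 1) ⊕ Fin (0 + 1)) → MvPolynomial (Fin (N + 1)) ℂ :=
    Sum.elim X (fun _ => 1) with hh
  have hev : ∀ (x : Fin (N + 1) → ℂ) (P : MvPolynomial (Fin (N + 1) ⊕ Fin (0 + 1)) ℂ),
      eval x (bind₁ h P) = eval (Sum.elim x (fun _ => 1)) P := by
    intro x P
    have h1 : eval x (bind₁ h P) = eval (fun k => eval x (h k)) P := by
      have := eval₂Hom_bind₁ (RingHom.id ℂ) x h P
      simpa using this
    rw [h1]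
    congr 2
    funext k
    rcases k with k | k <;> simp [hh]
  obtain ⟨x, hx, h⟩ := Pool.Agent.H952R2.Sextic.exists_common_zero (K := ℂ)
    (ι := Fin (N + 1)) (κ := Fin c ⊕ Fin n) (by
      rw [Fintype.card_sum, Fintype.card_fin, Fintype.card_fin, Fintype.card_fin]
      omega) (Sum.elim (fun j => bind₁ h (G j)) f) (by
      rintro (j | j)
      · rw [Sum.elim_inl, hev]
        have := hG j 0 1 0 (fun _ => 1)
        rw [zero_pow (hg j).ne', zero_mul, zero_mul] at this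
        rw [← this]
        congr 2
        funext k
        rcases k with k | k <;> simp
      · rw [Sum.elim_inr]
        have := Pool.Agent.K3h47.FU.eval_hom (hf j).2 0 0
        rw [zero_pow (hf j).1.ne', zero_mul] at this
        rw [← this]
        congr 2
        funext k
        simp)
  refine ⟨x, fun _ => 1, ⟨hx, ?_, fun j => ?_⟩, fun i => h (Sum.inr i)⟩
  · intro h1
    have := congrFun h1 0
    simp at this
  · rw [← hev]
    exact h (Sum.inl j)

theorem Base.dim' (D : Base N N' c n) : DimensionAtLeast n D.G := by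
  rcases D.dim with ⟨h1, h2, h3⟩ | h
  · subst h1
    exact dimension_completeIntersection D.G D.g D.g' D.bihomogeneous h3 h2
  · exact h

open Pool.Agent.K3h47.FU in
theorem Cover.dat (D : Cover N N' c r n) : Dat D.R D.δ D.e n := by
  classical
  refine ⟨D.δpos, D.two, D.rel, D.deg, fun I hI => ?_⟩
  have he : ∀ i, D.e i ≠ 0 := fun i => by have := D.two i; omega
  -- a point where the `F_i`, `i ∈ I`, vanish
  obtain ⟨x, y, hxy, hf⟩ := D.toBase.dim'
    (fun j => if h : j.1 < I.card then D.F (I.equivFin.symm ⟨j.1, h⟩) else X 0)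
    (fun j => if h : j.1 < I.card then D.δ (I.equivFin.symm ⟨j.1, h⟩) else 1)
    (fun j => by
      by_cases h : j.1 < I.card
      · simp only [dif_pos h]
        exact ⟨D.δpos _, D.homogeneous _⟩
      · simp only [dif_neg h]
        exact ⟨Nat.one_pos, isHomogeneous_X _ _⟩)
  have hI0 : ∀ i ∈ I, eval x (D.F i) = 0 := by
    intro i hi
    have hlt : (I.equivFin ⟨i, hi⟩).1 < I.card := (I.equivFin ⟨i, hi⟩).2
    have h1 := hf ⟨(I.equivFin ⟨i, hi⟩).1, lt_of_lt_of_le hlt hI⟩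
    simp only [dif_pos hlt] at h1
    rw [show (⟨(I.equivFin ⟨i, hi⟩).1, hlt⟩ : Fin I.card) = I.equivFin ⟨i, hi⟩ from rfl,
      Equiv.symm_apply_apply] at h1
    exact h1
  have hz : ∀ i, ∃ z : ℂ, z ^ D.e i = eval x (D.F i) := fun i =>
    IsAlgClosed.exists_pow_nat_eq _ (Nat.pos_of_ne_zero (he i))
  choose z hz using hz
  refine sur_of_free he I fun t ht1 ht2 i => ?_
  have h1 := (D.free x y z ⟨hxy, hz⟩ 1 t ht2 (fun k => by rw [Units.val_one, one_mul])
    (fun i => by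
      by_cases hi : i ∈ I
      · have h2 := hz i
        rw [hI0 i hi] at h2
        rw [(pow_eq_zero_iff (he i)).1 h2, mul_zero]
      · rw [ht1 i hi, Units.val_one, one_mul])).2
  rw [h1]
  rfl

open Pool.Agent.K3h47.FU in
theorem Cover.isSection_up (D : Cover N N' c r n) {ρ : ℤ × (Fin r → ℤ)}
    {Φ : MvPolynomial (Fin (N + 1) ⊕ Fin r) ℂ} (h : Sec D.R ρ Φ) (j : Fin (N' + 1)) :
    D.IsSection ρ (up j Φ) := by
  intro s q t hst x y z
  rw [value, value, eval_up, eval_up, h s t hst]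
  change q * y j * ((character ρ s t : ℂ) * _) = q * (character ρ s t : ℂ) * (y j * _)
  ring

open Pool.Agent.K3h47.FU in
/-- The case of the cone `(x, z)` implies that of the cone `(x, y, z)`. -/
theorem Cover.veryAmple_of (D : Cover N N' c r n) (ρ : ℤ × (Fin r → ℤ))
    (h1 : ∀ x y z, OnCone D.G D.F D.e x y z → ∃ Φ, Sec D.R ρ Φ ∧ eval (Sum.elim x z) Φ ≠ 0)
    (h2 : ∀ x y z x' y' z', OnCone D.G D.F D.e x y z → OnCone D.G D.F D.e x' y' z' →
      (¬ ∃ (s : ℂˣ) (t : Fin r → ℂˣ), D.InGroup s t ∧ (∀ k, x' k = (s : ℂ) * x k) ∧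
        ∀ i, z' i = (t i : ℂ) * z i) →
      ∃ Φ, Sec D.R ρ Φ ∧ eval (Sum.elim x z) Φ = 0 ∧ eval (Sum.elim x' z') Φ ≠ 0)
    (h3 : ∀ x y z u w v, OnCone D.G D.F D.e x y z → D.Tangent x u y w z v →
      (¬ ∃ σ : ℂ, (∀ k, u k = σ * x k) ∧ ∀ i, v i = σ * (D.δ i / D.e i) * z i) →
      ∃ Φ, Sec D.R ρ Φ ∧ eval (Sum.elim x z) Φ = 0 ∧ dd (Sum.elim x z) (Sum.elim u v) Φ ≠ 0) :
    D.VeryAmple ρ := by
  refine ⟨?_, ?_, ?_⟩
  · intro x y z hP
    obtain ⟨Φ, hΦ, h⟩ := h1 x y z hP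
    obtain ⟨j, hj⟩ := Function.ne_iff.1 hP.1.2.1
    refine ⟨up j Φ, D.isSection_up hΦ j, ?_⟩
    rw [value, eval_up]
    exact mul_ne_zero hj h
  · intro x y z x' y' z' hP hP' hne
    obtain ⟨Φ, hΦ, ha, hb⟩ := h2 x y z x' y' z' hP hP' (by
      rintro ⟨s, t, hst, hs, ht⟩
      apply hne
      have hxx : x' = fun k => (s : ℂ) * x k := funext hs
      -- the point `(x, s' y')` of the base
      have hb : OnBase D.G x y' := by
        refine ⟨hP.1.1, hP'.1.2.1, fun j => ?_⟩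
        have h4 := hP'.1.2.2 j
        rw [hxx] at h4
        have h5 := D.bihomogeneous j (s : ℂ) 1 x y'
        simp only [one_mul, one_pow, mul_one] at h5
        rw [h5] at h4
        exact (mul_eq_zero.1 h4).resolve_left (pow_ne_zero _ s.ne_zero)
      obtain ⟨q, hq⟩ := D.inj x y y' hP.1 hb
      have hq0 : q ≠ 0 := by
        rintro rfl
        exact hP'.1.2.1 (funext fun j => by rw [hq j, zero_mul]; rfl)
      exact ⟨s, Units.mk0 q hq0, t, hst, hs, fun j => by rw [hq j, Units.val_mk0], ht⟩)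
    obtain ⟨j, hj⟩ := Function.ne_iff.1 hP'.1.2.1
    refine ⟨up j Φ, D.isSection_up hΦ j, ?_, ?_⟩
    · rw [value, eval_up, ha, mul_zero]
    · rw [value, eval_up]
      exact mul_ne_zero hj hb
  · intro x y z u w v hP hT hne
    obtain ⟨Φ, hΦ, ha, hb⟩ := h3 x y z u w v hP hT (by
      rintro ⟨σ, hσ, hv⟩
      obtain ⟨τ, hτ⟩ := D.imm x u y w hP.1 hT.1 ⟨σ, hσ⟩
      exact hne ⟨σ, τ, hσ, hτ, hv⟩)
    obtain ⟨j, hj⟩ := Function.ne_iff.1 hP.1.2.1
    refine ⟨up j Φ, D.isSection_up hΦ j, ?_, ?_⟩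
    · rw [value, eval_up, ha, mul_zero]
    · have h4 : derivative x u y w z v (up j Φ)
          = dd (Sum.elim x (Sum.elim y z)) (Sum.elim u (Sum.elim w v)) (up j Φ) := by
        rw [dd_elim3]
        rfl
      rw [h4, dd_up, ha, mul_zero, zero_add]
      exact mul_ne_zero hj hb

open Pool.Agent.K3h47.FU in
theorem result (N N' c r n : ℕ) (D : Cover N N' c r n) (κ : ℤ) (m : ℕ)
    (A : ℤ × (Fin r → ℤ)) (hA : 0 < degree D.δ D.e A)
    (hκ : -(n : ℤ) ≤ κ ∨ (c = 0 ∧ N' = 0 ∧ N = n ∧ κ = -((n : ℤ) + 1) ∧ 2 ≤ n))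
    (hm : 1 - κ ≤ m) :
    D.VeryAmple ((κ, fun i => (D.e i : ℤ) - 1) + m • A) := by
  classical
  have h := D.dat
  obtain ⟨M, hM, hd, hF⟩ := h.exists_M
  have hMpos : (0 : ℚ) < M := by exact_mod_cast Nat.pos_of_ne_zero hM
  set ρ : ℤ × (Fin r → ℤ) := (κ, fun i => (D.e i : ℤ) - 1) + m • A with hρ
  have hbet : bet D.δ D.e ρ = κ + m * degree D.δ D.e A := by
    have h1 : ∑ i, ((ρ.2 i : ℚ) - (D.e i - 1)) * (D.δ i / D.e i)
        = m * ∑ i, (A.2 i : ℚ) * (D.δ i / D.e i) := by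
      rw [Finset.mul_sum]
      refine Finset.sum_congr rfl fun i _ => ?_
      have h2 : ρ.2 i = (D.e i : ℤ) - 1 + m * A.2 i := by simp [hρ]
      rw [h2]
      push_cast
      ring
    have h2 : ρ.1 = κ + m * A.1 := by simp [hρ]
    rw [bet, degree, h1, h2]
    push_cast
    ring
  have hint : ∃ a : ℤ, (M : ℚ) * degree D.δ D.e A = a := by
    choose w hw using hd
    refine ⟨M * A.1 + ∑ i, A.2 i * w i, ?_⟩
    rw [degree, mul_add, Finset.mul_sum, Int.cast_add, Int.cast_sum, Int.cast_mul,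
      Int.cast_natCast]
    congr 1
    refine Finset.sum_congr rfl fun i _ => ?_
    rw [Int.cast_mul, Int.cast_natCast]
    have h1 : (M : ℚ) * D.δ i = D.e i * w i := by exact_mod_cast hw i
    have h2 : (D.e i : ℚ) ≠ 0 := by exact_mod_cast (h.neZero i).ne
    field_simp
    linear_combination (A.2 i : ℚ) * h1
  have hmain : (M : ℚ) * κ + m ≤ M * bet D.δ D.e ρ := by
    obtain ⟨a, ha⟩ := hint
    have h1 : (0 : ℚ) < a := by rw [← ha]; exact mul_pos hMpos hA
    have h2 : (1 : ℤ) ≤ a := by exact_mod_cast h1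
    have h3 : (1 : ℚ) ≤ a := by exact_mod_cast h2
    rw [hbet, mul_add]
    have h4 : (M : ℚ) * (m * degree D.δ D.e A) = m * a := by rw [← ha]; ring
    rw [h4]
    have h5 : (0 : ℚ) ≤ m := by positivity
    nlinarith
  rcases hκ with hκ | ⟨rfl, rfl, rfl, hκ, hn⟩
  · have hβ : -(n : ℚ) * M + n + 1 ≤ M * bet D.δ D.e ρ := by
      have h5 : -(n : ℚ) ≤ κ := by exact_mod_cast hκ
      have h6 : (1 : ℚ) - κ ≤ m := by exact_mod_cast hm
      have h7 : (1 : ℚ) ≤ M := by exact_mod_cast Nat.one_le_iff_ne_zero.2 hM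
      have h8 : 0 ≤ ((n : ℚ) + κ) * (M - 1) := mul_nonneg (by linarith) (by linarith)
      linarith
    refine D.veryAmple_of ρ ?_ ?_ ?_
    · rintro x y z hxz
      exact bpf h hM hd hF ρ hβ x hxz.1.1 z (D.few x y z hxz)
    · rintro x y z x' y' z' hxz hxz' hne
      exact pts h hM hd hF ρ hβ x x' hxz.1.1 hxz'.1.1 z z' D.F D.homogeneous hxz.2 hxz'.2
        (D.few x' y' z' hxz') hne
    · rintro x y z u w v hxz huv hne
      exact tan h hM hd hF ρ hβ x u hxz.1.1 z v (D.few x y z hxz) D.F D.homogeneous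
        hxz.2 huv.2 hne
  · have hβ : -((N : ℚ) + 1) * M + N + 2 ≤ M * bet D.δ D.e ρ := by
      have h5 : (κ : ℚ) = -((N : ℚ) + 1) := by rw [hκ]; push_cast; ring
      have h6 : (1 : ℚ) - κ ≤ m := by exact_mod_cast hm
      rw [h5] at hmain h6
      linarith
    have hfew : ∀ (x : Fin (N + 1) → ℂ) (z : Fin r → ℂ), x ≠ 0 →
        (∀ i, z i ^ D.e i = eval x (D.F i)) → (Finset.univ.filter (fun i => z i = 0)).card ≤ N :=
      fun x z hx hz => D.few x (fun _ => 1) z ⟨⟨hx, by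
        intro h1
        have := congrFun h1 0
        simp at this, fun j => j.elim0⟩, hz⟩
    have hex : M = 1 ∨ (∃ i, 2 ≤ D.δ i) ∨ (M ≠ 1 ∧ ∀ i, D.δ i = 1) := by
      by_cases hδ2 : ∃ i, 2 ≤ D.δ i
      · exact Or.inr (Or.inl hδ2)
      by_cases hM1 : M = 1
      · exact Or.inl hM1
      refine Or.inr (Or.inr ⟨hM1, fun i => ?_⟩)
      have h1 := D.δpos i
      have h2 : ¬ 2 ≤ D.δ i := fun h2 => hδ2 ⟨i, h2⟩
      omega
    have hsem := fun (hP : M ≠ 1 ∧ ∀ i, D.δ i = 1) =>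
      Pool.Agent.K3h47.HY.sem' h hP.2 hM hP.1 hd hF ρ hβ D.F D.homogeneous hfew hn
    refine D.veryAmple_of ρ ?_ ?_ ?_
    · rintro x y z hxz
      exact Pool.Agent.K3h47.HY.bpf3 h hM hd hF ρ hβ x hxz.1.1 z (D.few x y z hxz)
    · rintro x y z x' y' z' hxz hxz' hne
      exact Pool.Agent.K3h47.HY.pts3 h hM hd hF ρ hβ D.F D.homogeneous hfew hex
        (fun hP => (hsem hP).1) x x' hxz.1.1 hxz'.1.1 z z' hxz.2 hxz'.2 hne
    · rintro x y z u w v hxz huv hne
      exact Pool.Agent.K3h47.HY.tan3 h hM hd hF ρ hβ D.F D.homogeneous hfew hex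
        (fun hP => (hsem hP).2) x u hxz.1.1 z v hxz.2 huv.2 hne

end Pool.Agent.Results.MP_e09b14_ag.AbelianCovers
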