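import Pool.Agent.K3h99.WF.Thm
import Pool.Agent.K3h85.WF.OneBad
import Pool.Agent.K3h35.WF.TwoD
import Pool.Agent.K3h71.WF.Elim

/-!
# Fujita's very ampleness conjecture for weighted complete intersections with pairwise coprime
weights, in any codimension

Let `X = V(f_1, ..., f_c)` be a complete intersection of degrees `d_1, ..., d_c` and dimension `n`
in the weighted projective space `P(a_0, ..., a_{n+c})` with pairwise coprime weights, such that
`O(1)` is invertible on `X` (`hgcd`: `X` does not meet the locus where the torus action has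
nontrivial stabilisers, the points `P_i = (0, ..., 1, ..., 0)` with `a_i > 1`). Then
`K_X = O(∑ d_j - ∑ a_i)`, and for `A = O(k)`, `k ≥ 1`, and `m ≥ n + 2` the bundle
`K_X + m A = O(e)` is very ample: its sections given by the forms of weighted degree `e` have no
base point, separate points and separate tangent vectors. The codimension `c` is arbitrary; so is
the number of equations needed to avoid the points `P_i`.

The proof. A pair of points, or a tangent vector, which is not separated is a point `y` of `X` with
values in `B = ℂ` or `ℂ[ε]` with `s(y) = s(v)` for all forms `s` of degree `e`. Linear variables can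
be eliminated. We may assume that all nonzero coordinates `v_i`, `i ∈ S`, have weights `a_i > 1`; the
equation `f_{J(i)}` contains `x_i ^ u_i`. The numerical input is
`e ≥ 1 + ∑_j (d_j - 1 - ∑_{J(i) = j} (a_i - 1))`.

1. If `J` is injective on `S`, take a minimal subset `C` of `S` such that each `u_i a_i`, `i ∈ C`, is a
   nontrivial combination of the weights in `C`. If `C` has at least three elements and `c_i ≤ u_i` is
   the least positive number such that `c_i a_i` is a combination of the other weights in `C`, then
   `c_i a_i + (a combination) = e` for all `i` in `C` except at most one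
   (`Pool.Agent.K3h99.WF.OneBad`), so the ratios `z_i = y_i / v_i` satisfy all relations but one, and a
   reduction modulo these relations (chip firing, with the exceptional element as the sink) shows
   that `z_i = τ ^ a_i`.
2. If `C = {p, q}`, or if `J(p) = J(q)` for two elements of `S` and `d_{J(p)} = a_p a_q`, then either `e` has two
   monomials in `x_p`, `x_q`, or each ratio `z_l` is a monomial `z_p ^ x_l z_q ^ y_l`, `(x_l, y_l) ∈ ℤ²`. The
   monomials of an equation of degree `d_{J(l)}` then take at most two values; this gives relations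
   which preserve the vectors `(x_l, y_l)`, and on an extremal ray of the cone spanned by them a
   common root of the ratios (`Pool.Agent.K3h99.WF.TwoD`).
3. In the remaining cases `e` is large.
-/

set_option autoImplicit false

namespace Pool.Agent.Results.MP_e09b14_ag.PairwiseCoprimeWeights

open MvPolynomial

/-- `K_X + m A` is very ample for `A = O(k)`, `k ≥ 1`, `m ≥ n + 2`, if `X` is a weighted complete
intersection of dimension `n` and any codimension `c`, with pairwise coprime weights, on which
`O(1)` is invertible. -/
theorem result (n c : ℕ) (a : Fin (n + c + 1) → ℕ) (ha : ∀ i, 0 < a i)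
    (hcop : ∀ i i', i ≠ i' → Nat.Coprime (a i) (a i')) (d : Fin c → ℕ) (hd : ∀ j, 0 < d j)
    (f : Fin c → MvPolynomial (Fin (n + c + 1)) ℂ) (hf : ∀ j, IsWeightedHomogeneous a (f j) (d j))
    (hgcd : ∀ v : Fin (n + c + 1) → ℂ, v ≠ 0 → (∀ j, eval v (f j) = 0) →
      ∀ g : ℕ, (∀ i, v i ≠ 0 → g ∣ a i) → g = 1)
    (k m e : ℕ) (hk : 1 ≤ k) (hm : n + 2 ≤ m) (he : e + ∑ i, a i = ∑ j, d j + m * k) :
    -- no base points
    (∀ v : Fin (n + c + 1) → ℂ, v ≠ 0 → (∀ j, eval v (f j) = 0) →
      ∃ s : MvPolynomial (Fin (n + c + 1)) ℂ, IsWeightedHomogeneous a s e ∧ eval v s ≠ 0) ∧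
    -- points are separated
    (∀ v w : Fin (n + c + 1) → ℂ, v ≠ 0 → w ≠ 0 → (∀ j, eval v (f j) = 0) →
      (∀ j, eval w (f j) = 0) → (¬ ∃ t : ℂ, t ≠ 0 ∧ ∀ i, w i = t ^ a i * v i) →
      ∃ s : MvPolynomial (Fin (n + c + 1)) ℂ, IsWeightedHomogeneous a s e ∧
        eval v s = 0 ∧ eval w s ≠ 0) ∧
    -- tangent vectors are separated
    (∀ v u : Fin (n + c + 1) → ℂ, v ≠ 0 → (∀ j, eval v (f j) = 0) →
      (∀ j, ∑ i, eval v (pderiv i (f j)) * u i = 0) → (¬ ∃ τ : ℂ, ∀ i, u i = τ * (a i * v i)) →
      ∃ s : MvPolynomial (Fin (n + c + 1)) ℂ, IsWeightedHomogeneous a s e ∧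
        eval v s = 0 ∧ ∑ i, eval v (pderiv i s) * u i ≠ 0) := by
  refine Pool.Agent.K3h99.WF.theorem_main Pool.Agent.K3h85.WF.t_OneBad Pool.Agent.K3h35.WF.t_TwoD Pool.Agent.K3h71.WF.t_Elim ha hcop hd
    hf ?_ ?_
  · intro i hi
    by_contra hcon
    push Not at hcon
    have h1 := hgcd (Pi.single i 1) (by
      intro h
      have := congrFun h i
      rw [Pi.single_eq_same] at this
      exact one_ne_zero this) hcon (a i) (by
      intro i' hi'
      have : i' = i := by
        by_contra hne
        exact hi' (Pi.single_eq_of_ne hne _)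
      rw [this])
    omega
  · have h1 : ∑ i, a i = ∑ i, (a i - 1) + (n + c + 1) := by
      have : ∑ i, a i = ∑ i, ((a i - 1) + 1) := Finset.sum_congr rfl fun i _ => by
        have := ha i
        omega
      rw [this, Finset.sum_add_distrib]
      simp
    have h2 : ∑ j, d j = ∑ j, (d j - 1) + c := by
      have : ∑ j, d j = ∑ j, ((d j - 1) + 1) := Finset.sum_congr rfl fun j _ => by
        have := hd j
        omega
      rw [this, Finset.sum_add_distrib]
      simp
    have h3 : n + 2 ≤ m * k := hm.trans (Nat.le_mul_of_pos_right _ hk)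
    omega

end Pool.Agent.Results.MP_e09b14_ag.PairwiseCoprimeWeights
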