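import Pool.Agent.K3h47.TX.Main

/-!
# Fujita's very ampleness conjecture for towers of abelian covers

The varieties are `X = X_k → X_(k-1) → … → X_0 = T`, where each `X_(j+1) → X_j` is an étale or a
branched abelian cover. They are given by cones with the action of a group
(`Pool/Agent/K3h47/TX/Defs.lean`).

**The base.** Let `T` be a smooth projective variety of dimension `n ≥ 1`, `H` and `Ω` line bundles on
`T` generated by sections `x_k` resp. `y_j`, which embed `T` in `P^N × P^N'`, `H` ample, and
`K_T = Ω + κH`. For instance, let `H` be very ample, `κ = -n` and `Ω = K_T + nH`; this is base point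
free except for `(T, H) = (P^n, O(1))` (Sommese, Van de Ven). Or let `T ⊆ P^N` be a complete
intersection; then `K_T = κH`, `Ω = 0`, `N' = 0`, and `κ ≥ -n` if `T` is not `P^n`, `κ > -n` if it is
neither `P^n` nor a quadric. Or let `T = P^n`, `κ = -n-1`. The cone over `T` is the set of the `(x, y)`,
`x ≠ 0`, `y ≠ 0`, which satisfy the bihomogeneous equations `G_j` of `T`, with the action of `ℂˣ × ℂˣ`,
which is the common kernel of the characters `ρ` for which the sum of the `ρ_k` belonging to the `x_k`
and that of those belonging to the `y_j` are zero.

**Line bundles.** Let `X` be the quotient of a cone in `ℂ^σ` by a group acting freely, which is the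
common kernel of the group `R` of characters. The characters `c ∈ ℤ^σ` give line bundles `L_c` on
`X`; the sections of `L_c` are the functions `Φ` on the cone with `Φ(tp) = c(t) Φ(p)`; `L_c` is trivial
for `c ∈ R`. The coordinates of the cone are sections of the `L_c` where `c` is a basis vector.
We only use sections given by polynomials.

`degree c` and `omega c` are the coefficients of `H` and of `Ω` in `c`, up to torsion: the degree of
`x_k` is 1, that of `y_j` is 0, and that of `z_i` (see below) is `degree (d_i) / e_i`; `omega` is 0 for
`x_k`, 1 for `y_j` and `omega (d_i) / e_i` for `z_i`. If `degree A > 0` and `omega A ≥ 0`, a multiple of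
`L_A` is the pullback of `aH + bΩ`, `a > 0`, `b ≥ 0`, so `L_A` is ample.

**Étale covers.** If `R' ⊇ R` and all elements of `R'` have finite order modulo `R` then the quotient
of the cone by the group belonging to `R'` is an étale abelian cover of `X`.

**Branched covers.** Let the divisors `D_i = {F_i = 0}` of `X`, `F_i` of class `d_i` with
`degree (d_i) > 0`, `omega (d_i) ≥ 0`, cross normally, and let `X' → X` be a smooth abelian cover
branched along the `D_i` with indices `e_i`, such that the group is generated by the inertia groups.
(Every smooth abelian cover is the composition of such a cover and an étale one.) If the building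
data are in `ℤ^σ / R` then `X'` is the quotient of the cone `{(p, z) : z_i ^ (e_i) = F_i(p)}` by a
group acting freely (`free`), given by its group `R'` of characters. The equations are invariant
(`rel`), and `R' ∩ ℤ^σ = R` (`res`), for there is no étale cover between `X'` and `X`. At most `n` of
the `D_i` meet in a point (`few`). The `D_i` are ample and `X` has dimension `n`, so any `n` of them
have a common point (`meet`). `z_i` is the equation of the reduced preimage of `D_i`, and
`K_X' = π^* K_X + ∑ (e_i - 1) (z_i = 0)`.

If `n ≥ 3` and `T` is a complete intersection, then all line bundles on `X` are of the form `L_c` (for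
`N' = 0` we may put `y = 1`; the cone is a complete intersection of dimension at least 4, singular
only at the origin, and so factorial, by Grothendieck). So in this case the result holds for all
smooth varieties which one gets from `T` by taking successively étale or branched abelian covers,
and for all ample line bundles on them.

**The result.** Let `κ(X)` be the number `κ` of `Tower`, that is, `κ(T) = κ`, `κ(X') = κ(X)` for an étale
cover `X' → X`, and for a branched cover `X' → X` let `κ(X') = κ(X) + 1` if
* `κ(X) > -n`, or
* `κ(X) ≥ -n - 1` and fewer than `κ(X) + 2n` of the branch divisors `D_i` have minimal degree, that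
  is, there is no class of positive degree smaller than `degree (d_i)` (for `X = P^n`, `κ = -n-1`: at
  most `n - 2` of the `D_i` are hyperplanes), or
* there are at most `n` branch divisors, or
* the degrees `degree (d_i) / e_i` of the `z_i` are degrees of classes on `X`
  (for `X = P^n`: if `e_i` divides the degree of `D_i`),
and otherwise `κ(X') = κ(X)`, which is only allowed if `κ(X) ≥ -n`, or if `κ(X) = -n - 1` and fewer
than `n` of the branch divisors have minimal degree. Then, for `A_1, …, A_m` ample (of
positive degree, `omega (A_j) ≥ 0`; for instance all equal to `A`), `K_X + A_1 + … + A_m` is base point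
free and separates points and tangent vectors if `m ≥ 1 - κ(X)`. In particular, this holds for
`m ≥ n + 1`
* if `κ ≥ -n`, that is, for `(T, H) ≠ (P^n, O(1))`;
* if `T = P^n` and the first branched cover has at most `n` branch divisors, or at most `n - 2`
  hyperplanes are among them, or `e_i ∣ degree (D_i)` for all `i` (the following covers are arbitrary);
and for `m ≥ 1 - κ - b`, `b` the number of branched covers, if `κ > -n`.

That `T` and `X` are smooth is not used. (The case of one branched cover of `(T, H)`, `H` very ample,
`κ ≥ -n`, with branch divisors and building data in `ℤH`, is contained in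
`Pool/Agent/Results/MP_e09b14_ag/AbelianCovers.lean`, which also treats all abelian covers of `P^n`,
for `m ≥ n + 2`.)

The proof is by induction on the number of steps. There is an `M > 0` such that the multiples of the
degrees by `M` are integers and that for all `c` with `omega (c - K_X) ≥ 0` and
`M · degree (c - K_X) ≥ 1 - κ(X)` (resp. `≥ -κ(X)`) `L_c` is very ample (resp. base point free).
-/

set_option autoImplicit false

namespace Pool.Agent.Results.MP_e09b14_ag.TowersOfAbelianCovers

open Pool.Agent.K3h47.TX

theorem result (n : ℕ) (κ : ℤ) (σ : Type) [Fintype σ] (C : Cone σ) (hC : Tower n κ σ C)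
    (m : ℕ) (hm : 1 - κ ≤ m) (A : Fin m → σ → ℤ) (hA : ∀ j, 0 < C.degree (A j))
    (hA' : ∀ j, 0 ≤ C.omega (A j)) : C.VeryAmple (C.K + ∑ j, A j) :=
  tower_veryAmple hC m hm A hA hA'

end Pool.Agent.Results.MP_e09b14_ag.TowersOfAbelianCovers
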